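import Pool.Agent.H97.NW.CNT

/-! # [H26 TR CNX] The number of conditions is smaller than the number of unknowns, explicit form

`CntD m n γ δ`: the numbers `γ`, `δ` satisfy the numerical condition of the counting; `exists_cntD` (all `m`, all `γ > 0`),
`cntD_two` (`m = 2`, `δ = γ/(4 n + 5)`, `n ≥ 1`, `γ ≤ 1`). `count_abs`: the counting for heights `h_v`, weights `ℓ_v ≥ ϱ_v h_v`
and the degrees `⌊Y/h_v⌋`. -/

namespace Pool.Agent.H26.TR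

open Finset Pool.Agent.H97.NW

/-- the numerical condition of the counting -/
def CntD (m n : ℕ) (γ δ : ℝ) : Prop :=
  0 < δ ∧ δ * (n + 2) < 1 ∧
    (1 + δ) * ((m : ℝ) + δ + m * δ) ^ m ≤ (1 + γ) * ((1 - n * δ) ^ m * (m : ℝ) ^ m)

theorem CntD.le_one {m n : ℕ} {γ δ : ℝ} (H : CntD m n γ δ) : δ ≤ 1 := by
  have hn0 : (0 : ℝ) ≤ n := Nat.cast_nonneg n
  nlinarith [H.1, H.2.1]

theorem exists_cntD (m n : ℕ) (hm : 1 ≤ m) (γ : ℝ) (hγ : 0 < γ) : ∃ δ : ℝ, CntD m n γ δ := by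
  have hmr : (0 : ℝ) < m := by exact_mod_cast hm
  have hc : ContinuousAt (fun δ : ℝ => (1 + γ) * ((1 - n * δ) ^ m * (m : ℝ) ^ m) -
      (1 + δ) * ((m : ℝ) + δ + m * δ) ^ m) 0 := by
    apply Continuous.continuousAt
    fun_prop
  have h0 : (0 : ℝ) < (fun δ : ℝ => (1 + γ) * ((1 - n * δ) ^ m * (m : ℝ) ^ m) -
      (1 + δ) * ((m : ℝ) + δ + m * δ) ^ m) 0 := by
    have h1 : (fun δ : ℝ => (1 + γ) * ((1 - n * δ) ^ m * (m : ℝ) ^ m) -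
      (1 + δ) * ((m : ℝ) + δ + m * δ) ^ m) 0 = γ * (m : ℝ) ^ m := by
      simp only [mul_zero, sub_zero, one_pow, add_zero, one_mul]
      ring
    rw [h1]
    positivity
  have h2 := hc.eventually (lt_mem_nhds h0)
  have h3 : ∀ᶠ δ : ℝ in nhdsWithin 0 (Set.Ioi 0), 0 < (1 + γ) * ((1 - n * δ) ^ m * (m : ℝ) ^ m) -
      (1 + δ) * ((m : ℝ) + δ + m * δ) ^ m := h2.filter_mono nhdsWithin_le_nhds
  have h4 : ∀ᶠ δ : ℝ in nhdsWithin 0 (Set.Ioi 0), δ ∈ Set.Ioo (0 : ℝ) (1 / (n + 2)) :=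
    Ioo_mem_nhdsGT (by positivity)
  obtain ⟨δ, hδ, hδ'⟩ := (h3.and h4).exists
  refine ⟨δ, hδ'.1, ?_, by linarith⟩
  have h5 := hδ'.2
  rwa [lt_div_iff₀ (by positivity)] at h5

/-- `m = 2`: `δ = γ/(4 n + 5)` -/
theorem cntD_two (n : ℕ) (hn : 1 ≤ n) (γ : ℝ) (hγ : 0 < γ) (hγ1 : γ ≤ 1) : CntD 2 n γ (γ / (4 * n + 5)) := by
  have hnr : (1 : ℝ) ≤ n := by exact_mod_cast hn
  have h5 : (0 : ℝ) < 4 * n + 5 := by linarith
  obtain ⟨δ, hδ⟩ : ∃ δ : ℝ, δ = γ / (4 * n + 5) := ⟨_, rfl⟩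
  have hγδ : γ = (4 * n + 5) * δ := by
    rw [hδ]
    field_simp
  rw [← hδ]
  have hδ0 : 0 < δ := by rw [hδ]; positivity
  have hδ1 : (4 * n + 5) * δ ≤ 1 := by rw [← hγδ]; exact hγ1
  refine ⟨hδ0, by nlinarith, ?_⟩
  push_cast
  rw [hγδ]
  -- x = n δ
  obtain ⟨x, hx⟩ : ∃ x : ℝ, x = n * δ := ⟨_, rfl⟩
  have hx0 : δ ≤ x := by rw [hx]; nlinarith
  have hx1 : 4 * x + 5 * δ ≤ 1 := by rw [hx]; linarith
  have e1 : (1 : ℝ) + (4 * n + 5) * δ = 1 + 4 * x + 5 * δ := by rw [hx]; ring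
  rw [e1, ← hx]
  have key : (1 + δ) * (2 + 3 * δ) ^ 2 ≤ (1 + 4 * x + 5 * δ) * ((1 - x) ^ 2 * 4) := by
    nlinarith [mul_nonneg (mul_nonneg hδ0.le (sub_nonneg.2 hx0)) (sub_nonneg.2 hx1),
      mul_nonneg (sub_nonneg.2 hx0) (sub_nonneg.2 hx1), mul_nonneg hδ0.le (sub_nonneg.2 hx1),
      mul_nonneg (mul_nonneg hδ0.le hδ0.le) (sub_nonneg.2 hx1),
      mul_nonneg (mul_nonneg hδ0.le hδ0.le) (sub_nonneg.2 hx0), mul_pos hδ0 hδ0,
      mul_nonneg (mul_nonneg (hδ0.le.trans hx0) (hδ0.le.trans hx0)) (sub_nonneg.2 hx1),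
      mul_nonneg (mul_nonneg (hδ0.le.trans hx0) (hδ0.le.trans hx0)) (sub_nonneg.2 hx0)]
  have e2 : (2 : ℝ) + δ + 2 * δ = 2 + 3 * δ := by ring
  rw [e2]
  linarith

/-- **The counting.** -/
theorem count_abs (m n : ℕ) (hm : 1 ≤ m) (γ δ : ℝ) (hγ : 0 < γ) (H : CntD m n γ δ) (r : ℕ) (hr : 1 ≤ (r : ℝ) * δ)
    (h ell rho : Fin m → ℝ) (d : Fin m → ℕ) (hd : ∀ v, d v ≤ n) (hell : ∀ v, 0 < ell v) (hh : ∀ v, 0 < h v)
    (hrho : ∀ v, 0 < rho v) (hrh : ∀ v, rho v * h v ≤ ell v) (c : ℕ)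
    (hc : (1 + γ) * ((m : ℝ) ^ m * c) ≤ (m.factorial : ℝ) * ∏ v, (rho v * (d v : ℝ)))
    (Y : ℝ) (hYh : ∀ v, h v ≤ δ * Y) (hYl : ∀ v, ell v ≤ δ * Y) :
    (∀ v, 1 ≤ ⌊Y / h v⌋₊ + 1 - d v) ∧
      (r + 1) * (c * (cells ell ((m + δ) * Y)).card) ≤ r * ∏ v, ((⌊Y / h v⌋₊ + 1 - d v) * d v) := by
  have hδ1 := H.le_one
  obtain ⟨hδ, hδ2, hδm⟩ := H
  have hmr : (0 : ℝ) < m := by exact_mod_cast hm
  have hn0 : (0 : ℝ) ≤ n := Nat.cast_nonneg n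
  have hY0 : 0 < Y := by
    have h1 := hell ⟨0, hm⟩
    have h2 := hYl ⟨0, hm⟩
    by_contra h
    push Not at h
    nlinarith
  have hq : ∀ v, (n : ℝ) + 2 ≤ Y / h v := by
    intro v
    rw [le_div_iff₀ (hh v)]
    have h1 := hYh v
    nlinarith [hh v]
  have hDf : ∀ v, Y / h v - 1 < (⌊Y / h v⌋₊ : ℝ) := by
    intro v
    have := Nat.lt_floor_add_one (Y / h v)
    linarith
  have hdn : ∀ v, (d v : ℝ) ≤ n := fun v => by exact_mod_cast hd v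
  have hdD : ∀ v, d v + 1 ≤ ⌊Y / h v⌋₊ + 1 := by
    intro v
    have h1 : ((n + 1 : ℕ) : ℝ) < ((⌊Y / h v⌋₊ + 1 : ℕ) : ℝ) := by
      push_cast
      linarith [hq v, hDf v]
    have h2 : n + 1 < ⌊Y / h v⌋₊ + 1 := by exact_mod_cast h1
    have h3 := hd v
    omega
  have hNf1 : ∀ v, 1 ≤ ⌊Y / h v⌋₊ + 1 - d v := by
    intro v
    have := hdD v
    omega
  refine ⟨hNf1, ?_⟩
  have hNf : ∀ v, Y / h v * (1 - n * δ) ≤ ((⌊Y / h v⌋₊ + 1 - d v : ℕ) : ℝ) := by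
    intro v
    have h1 : ((⌊Y / h v⌋₊ + 1 - d v : ℕ) : ℝ) = (⌊Y / h v⌋₊ : ℝ) + 1 - d v := by
      have h2 := hdD v
      rw [Nat.cast_sub (by omega)]
      push_cast
      ring
    have h3 : (n : ℝ) ≤ Y / h v * (n * δ) := by
      have h4 : 1 ≤ Y / h v * δ := by
        rw [div_mul_eq_mul_div, le_div_iff₀ (hh v)]
        linarith [hYh v]
      nlinarith
    rw [h1]
    have h5 := hDf v
    have h6 := hdn v
    linarith
  have h1nd : 0 ≤ 1 - (n : ℝ) * δ := by nlinarith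
  obtain ⟨L, hL⟩ : ∃ L : ℝ, L = ∏ v, ell v := ⟨_, rfl⟩
  have hL0 : 0 < L := by rw [hL]; exact Finset.prod_pos fun v _ => hell v
  obtain ⟨HH, hHH⟩ : ∃ HH : ℝ, HH = ∏ v, h v := ⟨_, rfl⟩
  have hHH0 : 0 < HH := by rw [hHH]; exact Finset.prod_pos fun v _ => hh v
  obtain ⟨RR, hRR⟩ : ∃ RR : ℝ, RR = ∏ v, rho v := ⟨_, rfl⟩
  have hRR0 : 0 < RR := by rw [hRR]; exact Finset.prod_pos fun v _ => hrho v
  have hRL : RR * HH ≤ L := by
    rw [hRR, hHH, hL, ← Finset.prod_mul_distrib]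
    exact Finset.prod_le_prod (fun v _ => (mul_pos (hrho v) (hh v)).le) fun v _ => hrh v
  obtain ⟨NN, hNN⟩ : ∃ NN : ℝ, NN = ∏ v, ((⌊Y / h v⌋₊ + 1 - d v : ℕ) : ℝ) := ⟨_, rfl⟩
  have hNN0 : 0 ≤ NN := by rw [hNN]; exact Finset.prod_nonneg fun v _ => Nat.cast_nonneg _
  have hprodN : Y ^ m * (1 - n * δ) ^ m ≤ NN * HH := by
    have h1 : ∏ v : Fin m, (Y / h v * (1 - n * δ)) ≤ ∏ v, ((⌊Y / h v⌋₊ + 1 - d v : ℕ) : ℝ) :=
      Finset.prod_le_prod (fun v _ => mul_nonneg (div_nonneg hY0.le (hh v).le) h1nd) fun v _ => hNf v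
    have h2 : ∏ v : Fin m, (Y / h v * (1 - n * δ)) = Y ^ m * (1 - n * δ) ^ m / HH := by
      rw [Finset.prod_mul_distrib, Finset.prod_div_distrib, Finset.prod_const, Finset.prod_const,
        Finset.card_univ, Fintype.card_fin, hHH]
      ring
    rw [h2, div_le_iff₀ hHH0, ← hNN] at h1
    exact h1
  have hcells := cells_card m ell hell ((m + δ) * Y) (by positivity)
  obtain ⟨CC, hCC⟩ : ∃ CC : ℝ, CC = ((cells ell ((m + δ) * Y)).card : ℝ) := ⟨_, rfl⟩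
  rw [← hCC, ← hL] at hcells
  have hcells2 : CC * ((m.factorial : ℝ) * L) ≤ Y ^ m * ((m : ℝ) + δ + m * δ) ^ m := by
    refine hcells.trans ?_
    rw [← mul_pow]
    apply pow_le_pow_left₀
    · have : 0 ≤ ∑ v, ell v := Finset.sum_nonneg fun v _ => (hell v).le
      positivity
    · have h1 : ∑ v, ell v ≤ m * (δ * Y) := by
        calc ∑ v, ell v ≤ ∑ _v : Fin m, δ * Y := Finset.sum_le_sum fun v _ => hYl v
          _ = m * (δ * Y) := by rw [Finset.sum_const, Finset.card_univ, Fintype.card_fin, nsmul_eq_mul]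
      linarith
  have hC0 : 0 ≤ CC := by rw [hCC]; exact Nat.cast_nonneg _
  have hfac : (0 : ℝ) < m.factorial := by exact_mod_cast m.factorial_pos
  obtain ⟨DD, hDD⟩ : ∃ DD : ℝ, DD = ∏ v, (d v : ℝ) := ⟨_, rfl⟩
  have hDD0 : 0 ≤ DD := by rw [hDD]; exact Finset.prod_nonneg fun v _ => Nat.cast_nonneg _
  rw [Finset.prod_mul_distrib, ← hRR, ← hDD] at hc
  have hmain : (1 + δ) * (c * CC) ≤ NN * DD := by
    have hpos : 0 < (1 + γ) * (m : ℝ) ^ m * (m.factorial : ℝ) * L := by positivity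
    refine le_of_mul_le_mul_left ?_ hpos
    calc (1 + γ) * (m : ℝ) ^ m * (m.factorial : ℝ) * L * ((1 + δ) * (c * CC))
        = ((1 + γ) * ((m : ℝ) ^ m * c)) * ((1 + δ) * (CC * ((m.factorial : ℝ) * L))) := by ring
      _ ≤ ((m.factorial : ℝ) * (RR * DD)) * ((1 + δ) * (Y ^ m * ((m : ℝ) + δ + m * δ) ^ m)) := by
          gcongr
      _ = ((m.factorial : ℝ) * (RR * DD)) * Y ^ m * ((1 + δ) * ((m : ℝ) + δ + m * δ) ^ m) := by ring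
      _ ≤ ((m.factorial : ℝ) * (RR * DD)) * Y ^ m *
            ((1 + γ) * ((1 - n * δ) ^ m * (m : ℝ) ^ m)) := by gcongr
      _ = ((m.factorial : ℝ) * (RR * DD)) * (1 + γ) * (m : ℝ) ^ m *
            (Y ^ m * (1 - n * δ) ^ m) := by ring
      _ ≤ ((m.factorial : ℝ) * (RR * DD)) * (1 + γ) * (m : ℝ) ^ m *
            (NN * HH) := by gcongr
      _ = ((m.factorial : ℝ) * DD) * (1 + γ) * (m : ℝ) ^ m * NN * (RR * HH) := by ring
      _ ≤ ((m.factorial : ℝ) * DD) * (1 + γ) * (m : ℝ) ^ m * NN * L := by gcongr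
      _ = _ := by ring
  have hcc0 : 0 ≤ (c : ℝ) * CC := by positivity
  have hfin : ((r + 1 : ℕ) : ℝ) * (c * CC) ≤ (r : ℝ) * (NN * DD) := by
    push_cast
    calc ((r : ℝ) + 1) * (c * CC) ≤ ((r : ℝ) + r * δ) * (c * CC) := by gcongr
      _ = r * ((1 + δ) * (c * CC)) := by ring
      _ ≤ _ := by gcongr
  rw [hNN, hDD, ← Finset.prod_mul_distrib, hCC] at hfin
  have hfin' : (((r + 1) * (c * (cells ell ((m + δ) * Y)).card) : ℕ) : ℝ) ≤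
      ((r * ∏ v, ((⌊Y / h v⌋₊ + 1 - d v) * d v) : ℕ) : ℝ) := by
    have e1 : (((r + 1) * (c * (cells ell ((m + δ) * Y)).card) : ℕ) : ℝ) =
        ((r + 1 : ℕ) : ℝ) * ((c : ℝ) * ((cells ell ((m + δ) * Y)).card : ℝ)) := by
      rw [Nat.cast_mul, Nat.cast_mul]
    have e2 : ((r * ∏ v, ((⌊Y / h v⌋₊ + 1 - d v) * d v) : ℕ) : ℝ) =
        (r : ℝ) * ∏ v, (((⌊Y / h v⌋₊ + 1 - d v : ℕ) : ℝ) * (d v : ℝ)) := by
      rw [Nat.cast_mul, Nat.cast_prod]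
      congr 1
      exact Finset.prod_congr rfl fun v _ => by rw [Nat.cast_mul]
    rw [e1, e2]
    exact hfin
  exact_mod_cast hfin'

end Pool.Agent.H26.TR
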