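import Pool.Agent.H26.TR.FRR
import Pool.Agent.H97.TV.NBW

/-! # [H26 TR NBR] No bad rational fibres with a large parameter -/

set_option autoImplicit false

namespace Pool.Agent.H26.TR

open Finset Polynomial Pool.Agent.H72.ES Pool.Agent.H87.SA Pool.Agent.H87.SA2 Pool.Agent.H87.AX
  Pool.Agent.H8.AW Pool.Agent.H52.AC Pool.Agent.H97.NW Pool.Agent.H34.AC Pool.Agent.H97.FB
  Pool.Agent.H97.FC Pool.Agent.H37.TU Pool.Agent.H97.TU Pool.Agent.H97.TV Pool.Agent.H97.TR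

/-- the numerator is at least the denominator -/
theorem badR_wa {n m ν c s : ℕ} {ϱ R1 : ℝ} {β : ℂ} (D : BadR n m ν c s ϱ R1 β) : D.w ≤ D.a :=
  (Nat.le_mul_of_pos_left _ (Nat.pow_pos (by have := D.Fm.B2; omega))).trans D.ba

theorem badR_a1 {n m ν c s : ℕ} {ϱ R1 : ℝ} {β : ℂ} (D : BadR n m ν c s ϱ R1 β) : 1 ≤ D.a :=
  D.w1.trans (badR_wa D)

/-- weaker constants -/
def badMono {n m ν c c' s s' : ℕ} {ϱ R1 R1' : ℝ} {β : ℂ} (hc : c ≤ c') (hR : R1 ≤ R1')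
    (hs : s' ≤ s) (D : BadR n m ν c' s' ϱ R1' β) : BadR n m ν c s ϱ R1 β where
  a := D.a
  w := D.w
  b := D.b
  f := D.f
  Fm := D.Fm
  l := D.l
  O := by
    obtain ⟨O⟩ := D.O
    exact ⟨⟨O.S, O.ρ, O.mem, O.val, O.card.trans hs, O.gal⟩⟩
  P := D.P
  L := D.L
  w1 := D.w1
  ba := (Nat.mul_le_mul_right _
    (Nat.pow_le_pow_right (by have := D.Fm.B2; omega) hc)).trans D.ba
  wa := D.wa
  thr := D.P.thr_mono hc D.thr
  big := (mul_le_mul_of_nonneg_right hR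
    (Real.log_nonneg (by exact_mod_cast badR_a1 D))).trans D.big

theorem badMono_a {n m ν c c' s s' : ℕ} {ϱ R1 R1' : ℝ} {β : ℂ} (hc : c ≤ c') (hR : R1 ≤ R1')
    (hs : s' ≤ s) (D : BadR n m ν c' s' ϱ R1' β) : (badMono hc hR hs D).a = D.a := rfl

/-- for every root `β` -/
theorem noBadR1 (n m r s M ν : ℕ) (hn : 2 ≤ n) (hm : 1 ≤ m) (hM : 1 ≤ M) (hν : 4 ≤ ν) (ϱ : ℝ)
    (hϱ : 0 < ϱ) (hϱ1 : ϱ ≤ 1) (hnum : NumR M n r s ϱ) :
    ∃ (R1 : ℝ) (c : ℕ), 1 ≤ R1 ∧ ∀ (q : ℚ[X]) (β : ℂ), Irreducible q → q.natDegree = r →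
      aeval β q = 0 → ∃ A0 : ℕ, ∀ D : BadR n m ν c s ϱ R1 β, D.a < A0 := by
  obtain ⟨R1, c, hR1, hfar⟩ := farR n m r s M ν hn hm hM hν ϱ hϱ hϱ1 hnum
  refine ⟨R1, c, hR1, fun q β hq hr hβ => ?_⟩
  by_contra hcon
  push Not at hcon
  have hlog0 : ∀ D : BadR n m ν c s ϱ R1 β, 0 ≤ Real.log D.a := fun D =>
    Real.log_nonneg (by exact_mod_cast badR_a1 D)
  have hαβ : ∀ D : BadR n m ν c s ϱ R1 β, Real.log D.a ≤ D.P.ell := fun D =>
    (le_mul_of_one_le_left (hlog0 D) hR1).trans D.big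
  obtain ⟨sq, hs⟩ := exists_lac (D := BadR n m ν c s ϱ R1 β) (fun D => Real.log D.a)
    (fun D => D.P.ell) hαβ (fun D => (hlog0 D).trans (hαβ D)) (by
      intro x
      obtain ⟨D, hD⟩ := hcon (⌈Real.exp x⌉₊)
      refine ⟨D, ?_⟩
      rw [Real.le_log_iff_exp_le (by exact_mod_cast badR_a1 D)]
      exact (Nat.le_ceil _).trans (by exact_mod_cast hD)) R1 hR1
  exact hfar q β hq hr hβ (fun v : Fin M => sq v) fun v w hvw => hs v w hvw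

/-- one fibre: local degree less than `ϱ n / 2` -/
theorem noBadRE (n m ν : ℕ) (hn : 2 ≤ n) (hm : 1 ≤ m) (hν : 4 ≤ ν) (ϱ : ℝ)
    (hϱ : 0 < ϱ) (hϱ1 : ϱ ≤ 1) : ∃ (R1 : ℝ) (c : ℕ), 1 ≤ R1 ∧
    ∀ s : ℕ, 2 * (s : ℝ) < ϱ * n → BadR n m ν c s ϱ R1 0 → False := by
  have h1 : ∀ s : ℕ, ∃ (R1 : ℝ) (c : ℕ), 1 ≤ R1 ∧
      (2 * (s : ℝ) < ϱ * n → BadR n m ν c s ϱ R1 0 → False) := by
    intro s
    by_cases h : 2 * (s : ℝ) < ϱ * n
    · have hnum : NumR 1 n 1 s ϱ := by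
        unfold NumR
        simp only [Nat.mul_one, Nat.cast_one, one_mul, pow_one]
        have h3 : (2 : ℕ).factorial = 2 := rfl
        rw [h3]
        push_cast
        linarith
      obtain ⟨R1, c, hR1, hfar⟩ := farR n m 1 s 1 ν hn hm le_rfl hν ϱ hϱ hϱ1 hnum
      refine ⟨R1, c, hR1, fun _ D => ?_⟩
      refine hfar X 0 irreducible_X natDegree_X (by simp) (fun _ => D) fun v w hvw => ?_
      exact absurd hvw (by
        have h1 := Subsingleton.elim v w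
        rw [h1]
        exact lt_irrefl w)
    · exact ⟨1, 0, le_rfl, fun h' => absurd h' h⟩
  choose Rf cf hRf hf using h1
  have hR0 : ∀ s, 0 ≤ Rf s := fun s => zero_le_one.trans (hRf s)
  refine ⟨1 + ∑ s ∈ range (n + 1), Rf s, ∑ s ∈ range (n + 1), cf s, ?_, ?_⟩
  · have := sum_nonneg fun s (_ : s ∈ range (n + 1)) => hR0 s
    linarith
  intro s hs D
  have hsn : s ≤ n := by
    have h2 : ϱ * n ≤ n := mul_le_of_le_one_left (Nat.cast_nonneg _) hϱ1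
    have h3 : (s : ℝ) ≤ n := by
      have h4 : (0 : ℝ) ≤ s := Nat.cast_nonneg _
      linarith
    exact_mod_cast h3
  have hmem : s ∈ range (n + 1) := mem_range.2 (by omega)
  refine hf s hs (badMono (single_le_sum (f := cf) (fun s _ => Nat.zero_le _) hmem) ?_ le_rfl D)
  have := single_le_sum (f := Rf) (fun s _ => hR0 s) hmem
  linarith

/-- for finitely many fields, all degrees -/
theorem noBadR (n m ν : ℕ) (hn : 2 ≤ n) (hm : 1 ≤ m) (hν : 4 ≤ ν) (ϱ : ℝ)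
    (hϱ : 0 < ϱ) (hϱ1 : ϱ ≤ 1) :
    ∃ (R1 : ℝ) (c : ℕ), 1 ≤ R1 ∧
    (∀ s : ℕ, 2 * (s : ℝ) < ϱ * n → BadR n m ν c s ϱ R1 0 → False) ∧
    ∀ QQ : Finset ℚ[X], ∃ A0 : ℕ, (QQ = ∅ → A0 = 0) ∧ ∀ q ∈ QQ, Irreducible q →
      q.natDegree ≤ n → ∀ s ≤ n, (∃ M, 1 ≤ M ∧ NumR M n q.natDegree s ϱ) → ∀ β : ℂ,
      aeval β q = 0 → ∀ D : BadR n m ν c s ϱ R1 β, D.a < A0 := by
  classical
  obtain ⟨RE, cE, hRE1, hE⟩ := noBadRE n m ν hn hm hν ϱ hϱ hϱ1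
  have h1 : ∀ r s : ℕ, ∃ (R1 : ℝ) (c : ℕ), 1 ≤ R1 ∧ ((∃ M, 1 ≤ M ∧ NumR M n r s ϱ) →
      ∀ (q : ℚ[X]) (β : ℂ), Irreducible q → q.natDegree = r →
      aeval β q = 0 → ∃ A0 : ℕ, ∀ D : BadR n m ν c s ϱ R1 β, D.a < A0) := by
    intro r s
    by_cases h : ∃ M, 1 ≤ M ∧ NumR M n r s ϱ
    · obtain ⟨M, hM, hnum⟩ := h
      obtain ⟨R1, c, hR1, h2⟩ := noBadR1 n m r s M ν hn hm hM hν ϱ hϱ hϱ1 hnum
      exact ⟨R1, c, hR1, fun _ => h2⟩
    · exact ⟨1, 0, le_refl _, fun h' => absurd h' h⟩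
  choose Rf cf hRf hf using h1
  obtain ⟨R1, hR1d⟩ : ∃ R1, R1 = RE + ∑ r ∈ range (n + 1), ∑ s ∈ range (n + 1), Rf r s :=
    ⟨_, rfl⟩
  obtain ⟨c, hcd⟩ : ∃ c, c = cE + ∑ r ∈ range (n + 1), ∑ s ∈ range (n + 1), cf r s := ⟨_, rfl⟩
  have hR0 : ∀ r s, 0 ≤ Rf r s := fun r s => zero_le_one.trans (hRf r s)
  have hS0 : 0 ≤ ∑ r ∈ range (n + 1), ∑ s ∈ range (n + 1), Rf r s :=
    sum_nonneg fun r _ => sum_nonneg fun s _ => hR0 r s
  have hREle : RE ≤ R1 := by linarith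
  have hcEle : cE ≤ c := by omega
  have hRle : ∀ r ≤ n, ∀ s ≤ n, Rf r s ≤ R1 := by
    intro r hr s hs
    have h2 := (single_le_sum (f := fun s => Rf r s) (fun s _ => hR0 r s)
      (mem_range.2 (by omega : s < n + 1))).trans
      (single_le_sum (f := fun r => ∑ s ∈ range (n + 1), Rf r s)
        (fun r _ => sum_nonneg fun s _ => hR0 r s) (mem_range.2 (by omega : r < n + 1)))
    linarith
  have hcle : ∀ r ≤ n, ∀ s ≤ n, cf r s ≤ c := by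
    intro r hr s hs
    have h2 := (single_le_sum (f := fun s => cf r s) (fun s _ => Nat.zero_le _)
      (mem_range.2 (by omega : s < n + 1))).trans
      (single_le_sum (f := fun r => ∑ s ∈ range (n + 1), cf r s)
        (fun r _ => Nat.zero_le _) (mem_range.2 (by omega : r < n + 1)))
    omega
  refine ⟨R1, c, hRE1.trans hREle, fun s hs D => hE s hs (badMono hcEle hREle le_rfl D),
    fun QQ => ?_⟩
  have h2 : ∀ (q : ℚ[X]) (s : ℕ) (β : ℂ), ∃ A0 : ℕ, Irreducible q → q.natDegree ≤ n → s ≤ n →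
      (∃ M, 1 ≤ M ∧ NumR M n q.natDegree s ϱ) → aeval β q = 0 →
      ∀ D : BadR n m ν c s ϱ R1 β, D.a < A0 := by
    intro q s β
    by_cases h : Irreducible q ∧ q.natDegree ≤ n ∧ s ≤ n ∧
      (∃ M, 1 ≤ M ∧ NumR M n q.natDegree s ϱ) ∧ aeval β q = 0
    · obtain ⟨hq, hqn, hs, hnum, hβ⟩ := h
      obtain ⟨A0, hA0⟩ := hf q.natDegree s hnum q β hq rfl hβ
      exact ⟨A0, fun _ _ _ _ _ D => by
        have h3 := hA0 (badMono (hcle _ hqn _ hs) (hRle _ hqn _ hs) le_rfl D)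
        rwa [badMono_a] at h3⟩
    · exact ⟨0, fun h1 h2 h3 h4 h5 => absurd ⟨h1, h2, h3, h4, h5⟩ h⟩
  choose A hA using h2
  refine ⟨∑ q ∈ QQ, ∑ s ∈ range (n + 1), ∑ β ∈ (q.aroots ℂ).toFinset, A q s β, ?_, ?_⟩
  · rintro rfl
    rw [sum_empty]
  intro q hq hqi hqn s hs hnum β hβ D
  refine (hA q s β hqi hqn hs hnum hβ D).trans_le ?_
  have hβm : β ∈ (q.aroots ℂ).toFinset := by
    rw [Multiset.mem_toFinset, mem_aroots]
    exact ⟨hqi.ne_zero, hβ⟩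
  exact (single_le_sum (f := fun β => A q s β) (fun _ _ => Nat.zero_le _) hβm).trans
    ((single_le_sum (f := fun s => ∑ β ∈ (q.aroots ℂ).toFinset, A q s β)
      (fun _ _ => Nat.zero_le _) (mem_range.2 (by omega))).trans
      (single_le_sum (f := fun q => ∑ s ∈ range (n + 1), ∑ β ∈ (q.aroots ℂ).toFinset, A q s β)
        (fun _ _ => Nat.zero_le _) hq))

end Pool.Agent.H26.TR
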