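import Pool.Agent.H26.TR.NBR
import Pool.Agent.H97.TR.RLR
import Pool.Agent.H97.TV.NPW

/-! # [H26 TR NPR] No point of large size over a factor of a rational fibre of an arbitrary family -/

set_option autoImplicit false

namespace Pool.Agent.H26.TR

open Finset Polynomial Pool.Agent.H72.ES Pool.Agent.H87.SA Pool.Agent.H87.SA2 Pool.Agent.H87.AX
  Pool.Agent.H8.AW Pool.Agent.H52.AC Pool.Agent.H97.NW Pool.Agent.H34.AC Pool.Agent.H97.FB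
  Pool.Agent.H97.FC Pool.Agent.H37.TU Pool.Agent.H97.TU Pool.Agent.H97.TV Pool.Agent.H97.TR

/-- the local condition: for every real irreducible factor `P` of `F` over `ℚ⟦t⟧` either
`2 deg P < ϱ n`, or `ℚ((t))[X]/P` contains a field `ℚ[X]/q`, `q ∈ QQ`, of sufficient degree -/
def LocR (n : ℕ) (ϱ : ℝ) (QQ : Finset ℚ[X]) (F : (PowerSeries ℚ)[X]) : Prop :=
  ∀ P : (PowerSeries ℚ)[X], P.Monic → Irreducible P → P ∣ F → RealRoot P →
    2 * (P.natDegree : ℝ) < ϱ * n ∨ ∃ q ∈ QQ, Irreducible q ∧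
      (∃ φ : (LaurentSeries ℚ)[X], P.map (HahnSeries.ofPowerSeries ℤ ℚ) ∣
        (q.map (algebraMap ℚ (LaurentSeries ℚ))).comp φ) ∧
      ∃ M, 1 ≤ M ∧ NumR M n q.natDegree P.natDegree ϱ

/-- no point of large size over a factor of a rational fibre with a large parameter -/
theorem noPtR (n m ν : ℕ) (ϱ : ℝ) (hϱ : 0 < ϱ) (hϱ1 : ϱ ≤ 1) (hn : 3 ≤ n) (hm : 1 ≤ m)
    (hν : 4 ≤ ν) : ∃ (C : ℕ) (R1 : ℝ), 2 ≤ C ∧
    1 ≤ R1 ∧ ∀ QQ : Finset ℚ[X], ∃ A0 : ℕ, (QQ = ∅ → A0 = 0) ∧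
      ∀ (f : ℤ[X][X]) (B a w : ℕ) (g : ℤ[X]),
      f.Monic → f.natDegree = n → (∀ i, (f.coeff i).natDegree ≤ m * (n - i)) →
      Irreducible (f.map (mapRingHom (Int.castRingHom ℂ))) → LocR n ϱ QQ (fQ (rv n m f)) →
      (∀ i j, |(f.coeff i).coeff j| ≤ (B : ℤ)) → 2 ≤ B → 1 ≤ w → B ^ C * w ≤ a → A0 ≤ a →
      ϱ * Real.log a ≤ Real.log ((a : ℝ) / w) → g.Monic → g ∣ fr n m f a w →
      ∀ P : Ptd ν, P.Thr C → R1 * Real.log a ≤ P.ell →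
      (∀ (k : ℕ) (θ : Fin k → ℂ), Rts g θ → ∃ l, Nonempty (LbG P (v1 θ) l)) → False := by
  obtain ⟨R1, c1, hR1, hbadE, hbad⟩ := noBadR n m ν (by omega) hm hν ϱ hϱ hϱ1
  obtain ⟨c2, hfib⟩ := exists_famB n m (by omega) hm
  obtain ⟨CT, hTR⟩ := thR_rts n m
  obtain ⟨CR, hRR⟩ := fam_realR n m
  obtain ⟨C, hCd⟩ : ∃ C, C = c2 * (c1 + CT + CR) + c1 + cA ν + 2 := ⟨_, rfl⟩
  have hCa : c2 * (c1 + CT + CR) ≤ C := by rw [hCd]; omega
  have hCb : c1 ≤ C := by rw [hCd]; omega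
  have hCc : cA ν ≤ C := by rw [hCd]; omega
  have hC2 : 2 ≤ C := by rw [hCd]; omega
  refine ⟨C, R1, hC2, hR1, fun QQ => ?_⟩
  obtain ⟨A0, hA00, hA0⟩ := hbad QQ
  refine ⟨A0, hA00, ?_⟩
  intro f B a w g hfm hd hcd hfirr hloc hfB hB2 hw1 hBa hA hwa hgm hgd P hThr hbig hlab
  obtain ⟨b, hb, ⟨Fm⟩⟩ := hfib f B hB2 hfm hd hcd hfB hfirr
  have hb2 := Fm.B2
  have hbc : b ^ (c1 + CT + CR) * w ≤ a := by
    refine (Nat.mul_le_mul_right _ (Nat.pow_le_pow_left hb _)).trans ?_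
    rw [← pow_mul]
    exact (Nat.mul_le_mul_right _ (Nat.pow_le_pow_right (by omega) hCa)).trans hBa
  have hbc1 : b ^ c1 * w ≤ a :=
    (Nat.mul_le_mul_right _ (Nat.pow_le_pow_right (by omega) (by omega))).trans hbc
  have hbcT : b ^ CT * w ≤ a :=
    (Nat.mul_le_mul_right _ (Nat.pow_le_pow_right (by omega) (by omega))).trans hbc
  have hbcR : b ^ CR * w ≤ a :=
    (Nat.mul_le_mul_right _ (Nat.pow_le_pow_right (by omega) (by omega))).trans hbc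
  have hR := hTR b _ Fm a w hw1 hbcT
  obtain ⟨l, hL⟩ : ∃ l, Nonempty (LbG P (v1 (thR Fm.pd m a w)) l) := by
    obtain ⟨k, ι, -, hι⟩ := rts_dvd hR hgm hgd
    obtain ⟨l, hl⟩ := hlab k _ hι
    exact ⟨ι l, lbG_fac ι hl⟩
  have hre : (Fm.pd.x l).map (starRingEnd ℂ) = Fm.pd.x l := by
    refine hRR b _ Fm a w hw1 hbcR l ?_
    obtain ⟨L⟩ := hL
    have hint := (gdG_one (fr_monic Fm.monic Fm.deg a w).1 hR).int l 0
    have hAA : thR Fm.pd m a w l ∈ AA := by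
      rw [mem_algebraicClosure_iff]
      exact (hint.tower_top (A := ℚ)).isAlgebraic
    exact lab_real hν P (P.thr_mono hCc hThr) L hAA
  obtain ⟨G, hG1, hG2, hG3, hG4, hG5, hG6⟩ := exists_orb Fm (rv_monic hfm hd) l hre
  have hGn := fac_deg hfm hd hG3
  rcases hloc G hG1 hG2 hG3 hG4 with h1 | ⟨q, hq, hqi, hφ, hnum⟩
  · exact hbadE G.natDegree h1 ⟨a, w, b, f, Fm, l, hG5, P, hL, hw1, hbc1, hwa,
      P.thr_mono hCb hThr, hbig⟩
  · obtain ⟨β, hβ, hO⟩ := hG6 q hqi hφ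
    have hqn : q.natDegree ≤ n := by
      obtain ⟨O⟩ := hO
      exact (deg_le_orb Fm.pd hqi hβ O).trans hGn
    have h1 := hA0 q hq hqi hqn G.natDegree hGn hnum β hβ
      ⟨a, w, b, f, Fm, l, hO, P, hL, hw1, hbc1, hwa, P.thr_mono hCb hThr, hbig⟩
    exact absurd h1 (not_lt.2 hA)

end Pool.Agent.H26.TR
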