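import Pool.Agent.H26.TR.NPR
import Pool.Agent.H37.XP.IFM
import Pool.Agent.H37.XP.TYX
import Pool.Agent.H37.XP.THX
import Pool.Agent.H37.XP.FMX
import Pool.Agent.H26.TR.FBX

/-! # [H26 TR NPX] No point of large size over a rational fibre: one fibre, explicit constants -/

set_option autoImplicit false

namespace Pool.Agent.H26.TR

open Finset Polynomial Pool.Agent.H72.ES Pool.Agent.H87.SA Pool.Agent.H87.SA2 Pool.Agent.H87.AX
  Pool.Agent.H8.AW Pool.Agent.H52.AC Pool.Agent.H97.NW Pool.Agent.H34.AC Pool.Agent.H97.FB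
  Pool.Agent.H97.FC Pool.Agent.H37.TU Pool.Agent.H97.TU Pool.Agent.H97.TV Pool.Agent.H97.TR
  Pool.Agent.H37.XP

/-- the exponent for one fibre -/
def cB (n m ν N : ℕ) : ℕ := cA (max ν (m * n.factorial)) + 2 * N ^ kE + CV n m (N ^ kE) +
  3 * n.factorial

/-- the exponent of the theorem -/
def CN (n m ν N : ℕ) : ℕ := FV n m * (cB n m ν N + 3 * n.factorial) + cB n m ν N + cA ν + 2

/-- the exponent of a family -/
theorem FV_le {n m : ℕ} (hn : 2 ≤ n) (hm : 1 ≤ m) :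
    FV n m ≤ 2 ^ (14 * (m * n ^ 3 * n.factorial)) := by
  have h1 : FV n m = cF n m := by
    unfold FV cF cFH cFC
    ring
  rw [h1]
  exact cF_le hn hm

/-- the density at the room `γ` -/
private theorem npx_count {n s N : ℕ} {ϱ c D : ℝ} (hs1 : 1 ≤ s) (hϱ : 0 ≤ ϱ) (hN1 : (1 : ℝ) ≤ N)
    (hgap : (n : ℝ) ≤ N * (ϱ * n - 2 * s)) (hϱ1 : ϱ ≤ 1) (hcD : (n : ℝ) * c ≤ s * D) :
    ∃ γ : ℝ, 1 ≤ γ * N ∧ (1 + γ) * (((2 : ℕ) : ℝ) ^ 2 * c) ≤
      ((2 : ℕ).factorial : ℝ) * (ϱ * D) := by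
  have hs0 : (0 : ℝ) < s := by exact_mod_cast hs1
  have hn0 : (0 : ℝ) ≤ n := Nat.cast_nonneg _
  have hN0 : (0 : ℝ) ≤ N := Nat.cast_nonneg _
  have h1 : ϱ * n ≤ n := mul_le_of_le_one_left hn0 hϱ1
  have h2 : (2 * s : ℝ) ≤ n := by
    by_contra hcon
    have h3 : ϱ * n - 2 * s ≤ 0 := by linarith
    have h4 : (N : ℝ) * (ϱ * n - 2 * s) ≤ 0 := mul_nonpos_of_nonneg_of_nonpos hN0 h3
    have h5 : (n : ℝ) = 0 := by linarith
    have h6 : (N : ℝ) * (ϱ * n - 2 * s) = 0 := by linarith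
    rw [h5, mul_zero, zero_sub] at h6
    rw [h5, mul_zero, zero_sub] at hgap
    rcases mul_eq_zero.1 h6 with h7 | h7
    · linarith
    · linarith
  refine ⟨(ϱ * n - 2 * s) / (2 * s), ?_, ?_⟩
  · rw [div_mul_eq_mul_div, le_div_iff₀ (by positivity)]
    linarith
  · have h3 : 1 + (ϱ * n - 2 * s) / (2 * s) = ϱ * n / (2 * s) := by
      field_simp
      ring
    rw [h3]
    have h4 : ((2 : ℕ).factorial : ℝ) = 2 := by norm_num [Nat.factorial]
    rw [h4]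
    calc ϱ * n / (2 * s) * (((2 : ℕ) : ℝ) ^ 2 * c) = 2 * ϱ / s * (n * c) := by
          field_simp
          push_cast
          ring
      _ ≤ 2 * ϱ / s * (s * D) := mul_le_mul_of_nonneg_left hcD (by positivity)
      _ = 2 * (ϱ * D) := by
          field_simp

theorem farX (n m ν N : ℕ) (ϱ : ℝ) (hϱ1 : ϱ ≤ 1) (hϱN : 1 ≤ ϱ * N) (hm : 1 ≤ m)
    (hν : 4 ≤ ν) (hN1 : (max ν (m * n.factorial)).factorial ≤ N) (hN2 : KAP n m ≤ N) (s : ℕ)
    (hgap : (n : ℝ) ≤ N * (ϱ * n - 2 * s))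
    (D : BadR n m ν (cB n m ν N) s ϱ ((N ^ kE * m : ℕ) : ℝ) 0) : False := by
  classical
  obtain ⟨ν', hν'⟩ : ∃ ν', ν' = max ν (m * n.factorial) := ⟨_, rfl⟩
  have hν1 : ν ≤ ν' := by rw [hν']; exact le_max_left _ _
  have hν2 : m * n.factorial ≤ ν' := by rw [hν']; exact le_max_right _ _
  rw [← hν'] at hN1
  have hNpos : 1 ≤ N := (Nat.factorial_pos ν').trans_le hN1
  have hNr : (1 : ℝ) ≤ N := by exact_mod_cast hNpos
  have hϱ0 : 0 < ϱ := by
    by_contra hcon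
    have : ϱ * N ≤ 0 := mul_nonpos_of_nonpos_of_nonneg (not_lt.1 hcon) (by linarith)
    linarith
  have hcB : cB n m ν N = cA ν' + 2 * N ^ kE + CV n m (N ^ kE) + 3 * n.factorial := by
    rw [hν']
    rfl
  have hb2 := D.Fm.B2
  have hpow : ∀ k ≤ cB n m ν N, D.b ^ k * D.w ≤ D.a := fun k hk => (Nat.mul_le_mul_right _
    (Nat.pow_le_pow_right (by omega) hk)).trans D.ba
  have ha1 := badR_a1 D
  have hlog : 0 ≤ Real.log D.a := Real.log_nonneg (by exact_mod_cast ha1)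
  obtain ⟨A, hA1, hAw, hA2, hA3⟩ := tyX n m hm (N ^ kE) D.b D.f D.Fm D.a D.w D.w1
    (hpow _ (by omega)) ν' hν2
  have hhh : A.hh = m * Real.log D.a := by
    simp only [Ptr.hh, hA1]
    push_cast
    rw [abs_of_nonneg (by positivity), Real.log_pow]
  have hell : A.ell = m * Real.log (D.a / D.w) := by
    simp only [Ptr.ell, hA1, hAw]
    push_cast
    rw [abs_of_nonneg (by positivity), ← _root_.div_pow, Real.log_pow]
  -- the two pointed curves
  obtain ⟨P, hcv, han⟩ : ∃ P : Fin (2 * 1) → Ptr ν', (∀ v : Fin 1, P (cv v) =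
      ofPtd (liftP hν1 D.P)) ∧ ∀ v : Fin 1, P (an v) = A := by
    refine ⟨fun v => if v.val % 2 = 0 then ofPtd (liftP hν1 D.P) else A, fun v => ?_, fun v => ?_⟩
    · have h1 : (cv v).val % 2 = 0 := by simp only [cv]; omega
      simp only [if_pos h1]
    · have h1 : ¬ (an v).val % 2 = 0 := by simp only [an]; omega
      simp only [if_neg h1]
  obtain ⟨L⟩ := D.L
  obtain ⟨PP, hStb, hnear, hcard⟩ := exists_PPR (M := 1) P (fun _ => fr n m D.f D.a D.w)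
    (fun _ => thR D.Fm.pd m D.a D.w) (fun _ => rv n m D.f) (fun _ => D.Fm.pd) X 0
    (fun _ => D.l) s irreducible_X (by simp)
    (fun _ => (fr_monic D.Fm.monic D.Fm.deg _ _).1)
    (fun _ => thRX_rts n m _ _ _ _ _ D.w1 (hpow _ (by omega)))
    (fun v => by
      rw [hcv]
      exact lbR_of (liftP_LbG hν1 _ _ _ L))
    (fun _ => D.O) (fun v => by rw [han]; exact hA3)
  rw [natDegree_X, one_mul, one_mul, pow_one, pow_one] at hcard
  have hs1 : 1 ≤ s := by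
    obtain ⟨O⟩ := D.O
    exact (Finset.card_pos.2 ⟨_, O.mem⟩).trans_le O.card
  have hcard' : (n : ℝ) * (PP.card : ℝ) ≤ s * ∏ v, ((P v).d : ℝ) := by exact_mod_cast hcard
  obtain ⟨γ, hγN, hγ⟩ := npx_count hs1 hϱ0.le hNr hgap hϱ1 hcard'
  have hfar := far2 ν' (KAP n m) N (by omega) hN1 hN2 γ hγN (rhoV 1 ϱ)
    (fun v => by
      unfold rhoV
      split_ifs
      · rw [one_mul]; exact hNr
      · exact hϱN)
    (fun v => by unfold rhoV; split_ifs <;> [exact le_rfl; exact hϱ1])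
  refine hfar P PP hStb hnear ?_ (fun v => ?_) (fun v => ?_) ?_
  · have h1 := prod_rhoV (M := 1) ϱ fun v => ((P v).d : ℝ)
    rw [pow_one] at h1
    refine hγ.trans (le_of_eq ?_)
    rw [← h1]
  · rcases exists_cv_an (M := 1) v with ⟨w, rfl⟩ | ⟨w, rfl⟩
    · rw [hcv, rhoV_cv, one_mul, TR.ofPtd_hh, TR.ofPtd_ell]
    · rw [han, rhoV_an, hhh, hell, mul_left_comm]
      exact mul_le_mul_of_nonneg_left D.wa (by positivity)
  · rcases exists_cv_an (M := 1) v with ⟨w, rfl⟩ | ⟨w, rfl⟩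
    · rw [hcv]
      refine rlr_of_thr (by omega) (KAP_pos n m) _ ?_
      exact (D.P.thr_mono (by omega) D.thr : D.P.Thr (cA ν' + 2 * N ^ kE))
    · rw [han]
      exact hA2
  · intro i j hij
    have hi : i = cv (M := 1) 0 := by
      apply Fin.ext
      have h1 := Fin.lt_def.1 hij
      have h2 := j.isLt
      show i.val = 2 * 0
      omega
    have hj : j = an (M := 1) 0 := by
      apply Fin.ext
      have h1 := Fin.lt_def.1 hij
      have h2 := j.isLt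
      show j.val = 2 * 0 + 1
      omega
    rw [hi, hj, hcv, han, TR.ofPtd_hh, hhh, ← mul_assoc]
    have h3 := D.big
    push_cast at h3
    exact h3

/-- no point of large size over a factor of a rational fibre with a large parameter: explicit -/
theorem noPtX (n m ν N : ℕ) (ϱ : ℝ) (hϱ1 : ϱ ≤ 1) (hϱN : 1 ≤ ϱ * N) (hn : 3 ≤ n)
    (hm : 1 ≤ m) (hν : 4 ≤ ν) (hN1 : (max ν (m * n.factorial)).factorial ≤ N)
    (hN2 : KAP n m ≤ N) :
    ∀ (f : ℤ[X][X]) (B a w : ℕ) (g : ℤ[X]),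
      f.Monic → f.natDegree = n → (∀ i, (f.coeff i).natDegree ≤ m * (n - i)) →
      Irreducible (f.map (mapRingHom (Int.castRingHom ℂ))) →
      (∀ P : (PowerSeries ℚ)[X], P.Monic → Irreducible P → P ∣ fQ (rv n m f) → RealRoot P →
        (n : ℝ) ≤ N * (ϱ * n - 2 * P.natDegree)) →
      (∀ i j, |(f.coeff i).coeff j| ≤ (B : ℤ)) → 2 ≤ B → 1 ≤ w → B ^ CN n m ν N * w ≤ a →
      ϱ * Real.log a ≤ Real.log ((a : ℝ) / w) → g.Monic → g ∣ fr n m f a w →
      ∀ P : Ptd ν, P.Thr (CN n m ν N) → ((N ^ kE * m : ℕ) : ℝ) * Real.log a ≤ P.ell →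
      (∀ (k : ℕ) (θ : Fin k → ℂ), Rts g θ → ∃ l, Nonempty (LbG P (v1 θ) l)) → False := by
  intro f B a w g hfm hd hcd hfirr hloc hfB hB2 hw1 hBa hwa hgm hgd P hThr hbig hlab
  obtain ⟨c1, hc1⟩ : ∃ c1, c1 = cB n m ν N := ⟨_, rfl⟩
  have hC : CN n m ν N = FV n m * (c1 + 3 * n.factorial) + c1 + cA ν + 2 := by
    rw [hc1]
    rfl
  obtain ⟨b, hb, ⟨Fm⟩⟩ := famX n m (by omega) hm f B hB2 hfm hd hcd hfB hfirr
  have hb2 := Fm.B2
  have hbc : b ^ (c1 + 3 * n.factorial) * w ≤ a := by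
    refine (Nat.mul_le_mul_right _ (Nat.pow_le_pow_left hb _)).trans ?_
    rw [← pow_mul]
    exact (Nat.mul_le_mul_right _ (Nat.pow_le_pow_right (by omega) (by omega))).trans hBa
  have hbc1 : b ^ c1 * w ≤ a :=
    (Nat.mul_le_mul_right _ (Nat.pow_le_pow_right (by omega) (by omega))).trans hbc
  have hbcT : b ^ (3 * n.factorial) * w ≤ a :=
    (Nat.mul_le_mul_right _ (Nat.pow_le_pow_right (by omega) (by omega))).trans hbc
  have hR := thRX_rts n m b _ Fm a w hw1 hbcT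
  obtain ⟨l, hL⟩ : ∃ l, Nonempty (LbG P (v1 (thR Fm.pd m a w)) l) := by
    obtain ⟨k, ι, -, hι⟩ := rts_dvd hR hgm hgd
    obtain ⟨l, hl⟩ := hlab k _ hι
    exact ⟨ι l, lbG_fac ι hl⟩
  have hre : (Fm.pd.x l).map (starRingEnd ℂ) = Fm.pd.x l := by
    refine realX n m b _ Fm a w hw1 hbcT l ?_
    obtain ⟨L⟩ := hL
    have hint := (gdG_one (fr_monic Fm.monic Fm.deg a w).1 hR).int l 0
    have hAA : thR Fm.pd m a w l ∈ AA := by
      rw [mem_algebraicClosure_iff]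
      exact (hint.tower_top (A := ℚ)).isAlgebraic
    exact lab_real hν P (P.thr_mono (by omega) hThr) L hAA
  obtain ⟨G, hG1, hG2, hG3, hG4, hG5, hG6⟩ := exists_orb Fm (rv_monic hfm hd) l hre
  exact farX n m ν N ϱ hϱ1 hϱN hm hν hN1 hN2 G.natDegree (hloc G hG1 hG2 hG3 hG4)
    ⟨a, w, b, f, Fm, l, hG5, P, hL, hw1, hc1 ▸ hbc1, hwa, P.thr_mono (by omega) hThr, hbig⟩

end Pool.Agent.H26.TR
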