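import Pool.Agent.H97.TV.SCW
import Pool.Agent.H97.TR.Defs

/-! # [H26 TR SCR] The stable set and its size, rational fibres (density `ϱ`) -/

set_option autoImplicit false

namespace Pool.Agent.H26.TR

open Finset Polynomial Pool.Agent.H72.ES Pool.Agent.H87.SA Pool.Agent.H87.SA2 Pool.Agent.H87.AX
  Pool.Agent.H8.AW Pool.Agent.H52.AC Pool.Agent.H97.NW Pool.Agent.H34.AC Pool.Agent.H97.FB
  Pool.Agent.H97.FC Pool.Agent.H97.GA Pool.Agent.H37.TU Pool.Agent.H97.TU Pool.Agent.H97.TV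
  Pool.Agent.H97.TR

variable {M n nu : ℕ}

private theorem scr_memq {q : ℚ[X]} (hq : q ≠ 0) {z : ℂ} (hz : aeval z q = 0) : z ∈ AA := by
  rw [mem_algebraicClosure_iff]
  exact ⟨q, hq, hz⟩

theorem lab_prmR {g : ℤ[X]} {θ : Fin n → ℂ} (hm : g.Monic) (h : Rts g θ) {P : Ptr nu} {l : Fin n}
    (L : LbR P (v1 θ) l) {σ : AA →+* ℂ} {ν : Equiv.Perm (Fin n)} (hν : Prm θ σ ν) {i : Fin P.d}
    (hi : i ∈ L.S) {j : Fin P.d}
    (hij : ∀ k : ℕ, Cj σ (PowerSeries.coeff k (P.C.pd.x i)) (PowerSeries.coeff k (P.C.pd.x j))) :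
    j ∈ L.S ∧ L.th j = ν (L.th i) := by
  obtain ⟨h1, h2⟩ := L.gal σ i hi j hij
  refine ⟨h1, ?_⟩
  have hint := (gdG_one hm h).int (L.th i) 0
  have hmem : θ (L.th i) ∈ AA := by
    rw [mem_algebraicClosure_iff]
    exact (hint.tower_top (A := ℚ)).isAlgebraic
  obtain ⟨a, ha⟩ : ∃ a : AA, (a : ℂ) = θ (L.th i) := ⟨⟨θ (L.th i), hmem⟩, rfl⟩
  have h3 := h2 0 a ha
  have h4 := hν (L.th i) a ha
  exact h.2 (h3.symm.trans h4)

/-- the set of tuples of branches -/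
theorem exists_PPR (P : Fin (2 * M) → Ptr nu) (gs : Fin M → ℤ[X]) (θ : Fin M → Fin n → ℂ)
    (fs : Fin M → ℤ[X][X]) (pd : ∀ a, PData (fs a) n) (q : ℚ[X]) (β : ℂ) (l : Fin M → Fin n)
    (s : ℕ) (hq : Irreducible q) (hβ : aeval β q = 0) (hm : ∀ a, (gs a).Monic)
    (hθ : ∀ a, Rts (gs a) (θ a))
    (hC : ∀ a, Nonempty (LbR (P (cv a)) (v1 (θ a)) (l a)))
    (hO : ∀ a, Nonempty (OrbD (pd a) s β (l a))) (hA : ∀ a, TauR (θ a) (pd a) (P (an a))) :
    ∃ PP : Finset (∀ v, Fin (P v).d), StbR P PP ∧ (fun v => (P v).i) ∈ PP ∧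
      (q.natDegree * n) ^ M * PP.card ≤ q.natDegree * s ^ M * ∏ v, (P v).d := by
  classical
  have L : ∀ a, LbR (P (cv a)) (v1 (θ a)) (l a) := fun a => (hC a).some
  have O : ∀ a, OrbD (pd a) s β (l a) := fun a => (hO a).some
  choose tau htau1 htgal htrot hteq using hA
  have hq' : q.map (algebraMap ℚ ℂ) ≠ 0 :=
    (Polynomial.map_ne_zero_iff (algebraMap ℚ ℂ).injective).2 hq.ne_zero
  obtain ⟨Z, hZ⟩ : ∃ Z : Finset ℂ, Z = (q.map (algebraMap ℚ ℂ)).roots.toFinset := ⟨_, rfl⟩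
  have hmemZ : ∀ z, z ∈ Z ↔ aeval z q = 0 := by
    intro z
    rw [hZ, Multiset.mem_toFinset, mem_roots hq', IsRoot, eval_map]
    rfl
  have hZc : Z.card ≤ q.natDegree := by
    rw [hZ]
    exact (Multiset.toFinset_card_le _).trans ((card_roots' _).trans natDegree_map_le)
  let PP : Finset (∀ v, Fin (P v).d) := univ.filter fun x => ∃ b ∈ Z, ∀ a, x (cv a) ∈ (L a).S ∧
    ∃ u ∈ (O a).S, (O a).ρ u = b ∧ tau a (x (an a)) u = (L a).th (x (cv a))
  have hmem : ∀ x, x ∈ PP ↔ ∃ b ∈ Z, ∀ a, x (cv a) ∈ (L a).S ∧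
      ∃ u ∈ (O a).S, (O a).ρ u = b ∧ tau a (x (an a)) u = (L a).th (x (cv a)) := by
    intro x
    simp [PP]
  refine ⟨PP, ⟨?_, ?_⟩, ?_, ?_⟩
  · intro σ x hx x' hxx
    obtain ⟨b, hb, h⟩ := (hmem x).1 hx
    have hb0 := (hmemZ b).1 hb
    obtain ⟨b1, hb1⟩ : ∃ b1 : AA, (b1 : ℂ) = b := ⟨⟨b, scr_memq hq.ne_zero hb0⟩, rfl⟩
    have hcb : Cj σ b (σ b1) := fun c hc => by
      have : c = b1 := Subtype.ext (hc.trans hb1.symm)
      rw [this]
    rw [hmem]
    refine ⟨σ b1, ?_, fun a => ?_⟩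
    · rw [hmemZ]
      have h2 := cj_aeval (scr_memq hq.ne_zero hb0) hcb q
      rw [hb0] at h2
      have h3 := h2 0 rfl
      rw [map_zero] at h3
      exact h3.symm
    · obtain ⟨h1, u, hu, hub, hut⟩ := h a
      obtain ⟨ν, hν⟩ := exists_prm (hm a) (hθ a) σ
      obtain ⟨π, hπ, htπ⟩ := htgal a σ ν hν (x (an a)) (x' (an a))
        (fun k c hc => hxx (an a) k c hc)
      obtain ⟨h2, h3⟩ := lab_prmR (hm a) (hθ a) (L a) hν h1 (j := x' (cv a))
        (fun k c hc => hxx (cv a) k c hc)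
      obtain ⟨h5, h6⟩ := (O a).gal σ π hπ u hu
      refine ⟨h2, π u, h5, ?_, ?_⟩
      · rw [hub] at h6
        exact (h6 b1 hb1).symm
      · rw [h3, htπ, ← hut]
        simp
  · intro ζ hζ x hx x' hxx
    obtain ⟨b, hb, h⟩ := (hmem x).1 hx
    have hb0 := (hmemZ b).1 hb
    obtain ⟨b1, hb1⟩ : ∃ b1 : AA, (b1 : ℂ) = b := ⟨⟨b, scr_memq hq.ne_zero hb0⟩, rfl⟩
    rw [hmem]
    refine ⟨b, hb, fun a => ?_⟩
    obtain ⟨h1, u, hu, hub, hut⟩ := h a
    obtain ⟨h2, h3⟩ := (L a).rot (ζ (cv a)) (hζ _) (x (cv a)) h1 (x' (cv a)) (hxx (cv a))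
    obtain ⟨π, hπ, htπ⟩ := htrot a (ζ (an a)) (hζ _) (x (an a)) (x' (an a)) (hxx (an a))
    obtain ⟨h5, h6⟩ := (O a).gal idA π hπ u hu
    refine ⟨h2, π u, h5, ?_, ?_⟩
    · rw [hub] at h6
      have h7 := h6 b1 hb1
      rw [← h7, ← hb1]
      rfl
    · rw [h3, htπ, ← hut]
      simp
  · rw [hmem]
    refine ⟨β, (hmemZ β).2 hβ, fun a => ⟨(L a).mem, l a, (O a).mem, (O a).val, ?_⟩⟩
    rw [htau1, (L a).near]
    rfl
  · -- the size
    let U : ℂ → ∀ a : Fin M, Finset (Fin n) := fun b a => (O a).S.filter fun u => (O a).ρ u = b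
    let Q : ℂ → Finset (∀ v, Fin (P v).d) := fun b => univ.filter fun x => ∀ a,
      x (cv a) ∈ (L a).S ∧ ∃ u ∈ U b a, tau a (x (an a)) u = (L a).th (x (cv a))
    have hsub : PP ⊆ Z.biUnion Q := by
      intro x hx
      obtain ⟨b, hb, h⟩ := (hmem x).1 hx
      rw [mem_biUnion]
      refine ⟨b, hb, mem_filter.2 ⟨mem_univ _, fun a => ?_⟩⟩
      obtain ⟨h1, u, hu, hub, hut⟩ := h a
      exact ⟨h1, u, mem_filter.2 ⟨hu, hub⟩, hut⟩
    have hQ : ∀ b ∈ Z, (q.natDegree * n) ^ M * (Q b).card ≤ s ^ M * ∏ v, (P v).d := by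
      intro b hb
      -- pairs
      let R : ∀ a : Fin M, Finset (Fin (P (cv a)).d × Fin (P (an a)).d) := fun a =>
        univ.filter fun x => x.1 ∈ (L a).S ∧ ∃ u ∈ U b a, tau a x.2 u = (L a).th x.1
      have hR : ∀ a, n * (R a).card ≤ (U b a).card * ((P (cv a)).d * (P (an a)).d) := by
        intro a
        have h1 : (R a).card ≤ ∑ i : Fin (P (cv a)).d, ∑ u ∈ U b a,
            (univ.filter fun j => tau a j u = (L a).th i).card := by
          have h2 : (R a).card = ∑ i : Fin (P (cv a)).d, ((R a).filter fun x => x.1 = i).card :=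
            card_eq_sum_card_fiberwise fun x _ => mem_univ _
          rw [h2]
          refine sum_le_sum fun i _ => ?_
          have h3 : ((R a).filter fun x => x.1 = i).card ≤ ((U b a).biUnion fun u =>
              univ.filter fun j => tau a j u = (L a).th i).card := by
            refine card_le_card_of_injOn (fun x => x.2) ?_ ?_
            · rintro ⟨i', j⟩ hx
              have hx' := mem_filter.1 (mem_coe.1 hx)
              have hx1 := (mem_filter.1 hx'.1).2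
              have hx2 : i' = i := hx'.2
              subst hx2
              obtain ⟨-, u, hu, hut⟩ := hx1
              rw [mem_coe, mem_biUnion]
              exact ⟨u, hu, mem_filter.2 ⟨mem_univ _, hut⟩⟩
            · rintro ⟨i', j⟩ hx ⟨i'', j'⟩ hx' he
              have hx1 : i' = i := (mem_filter.1 (mem_coe.1 hx)).2
              have hx2 : i'' = i := (mem_filter.1 (mem_coe.1 hx')).2
              rw [Prod.mk.injEq]
              exact ⟨hx1.trans hx2.symm, he⟩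
          exact h3.trans card_biUnion_le
        calc n * (R a).card ≤ n * ∑ i : Fin (P (cv a)).d, ∑ u ∈ U b a,
              (univ.filter fun j => tau a j u = (L a).th i).card := Nat.mul_le_mul_left _ h1
          _ = ∑ i : Fin (P (cv a)).d, ∑ u ∈ U b a,
              n * (univ.filter fun j => tau a j u = (L a).th i).card := by
            rw [mul_sum]
            exact sum_congr rfl fun i _ => mul_sum _ _ _
          _ ≤ ∑ _i : Fin (P (cv a)).d, ∑ _u ∈ U b a, (P (an a)).d :=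
            sum_le_sum fun i _ => sum_le_sum fun u _ => hteq a u _
          _ = (U b a).card * ((P (cv a)).d * (P (an a)).d) := by
            simp only [sum_const, card_univ, Fintype.card_fin, smul_eq_mul]
            ring
      have hU : ∀ a, q.natDegree * (U b a).card ≤ s := fun a =>
        orbD_fib (O a) hq ((hmemZ b).1 hb)
      have hinj : (Q b).card ≤ (Fintype.piFinset R).card := by
        refine card_le_card_of_injOn (fun x a => (x (cv a), x (an a))) ?_ ?_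
        · intro x hx
          have hx' := (mem_filter.1 (mem_coe.1 hx)).2
          rw [mem_coe, Fintype.mem_piFinset]
          intro a
          exact mem_filter.2 ⟨mem_univ _, hx' a⟩
        · intro x _ x' _ h
          funext v
          rcases exists_cv_an v with ⟨a, rfl⟩ | ⟨a, rfl⟩
          · exact congrArg Prod.fst (congrFun h a)
          · exact congrArg Prod.snd (congrFun h a)
      rw [Fintype.card_piFinset] at hinj
      calc (q.natDegree * n) ^ M * (Q b).card ≤ (q.natDegree * n) ^ M * ∏ a, (R a).card :=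
            Nat.mul_le_mul_left _ hinj
        _ = ∏ a, (q.natDegree * (n * (R a).card)) := by
          rw [prod_mul_distrib, prod_mul_distrib, prod_const, prod_const, card_univ,
            Fintype.card_fin, mul_pow, mul_assoc]
        _ ≤ ∏ a, (s * ((P (cv a)).d * (P (an a)).d)) := by
          refine prod_le_prod' fun a _ => ?_
          calc q.natDegree * (n * (R a).card)
              ≤ q.natDegree * ((U b a).card * ((P (cv a)).d * (P (an a)).d)) :=
                Nat.mul_le_mul_left _ (hR a)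
            _ = q.natDegree * (U b a).card * ((P (cv a)).d * (P (an a)).d) := (mul_assoc _ _ _).symm
            _ ≤ s * ((P (cv a)).d * (P (an a)).d) := Nat.mul_le_mul_right _ (hU a)
        _ = s ^ M * ∏ v, (P v).d := by
          rw [prod_mul_distrib, prod_const, card_univ, Fintype.card_fin,
            prod_two fun v => (P v).d]
    calc (q.natDegree * n) ^ M * PP.card ≤ (q.natDegree * n) ^ M * ∑ b ∈ Z, (Q b).card :=
          Nat.mul_le_mul_left _ ((card_le_card hsub).trans card_biUnion_le)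
      _ = ∑ b ∈ Z, (q.natDegree * n) ^ M * (Q b).card := mul_sum _ _ _
      _ ≤ ∑ _b ∈ Z, s ^ M * ∏ v, (P v).d := sum_le_sum hQ
      _ = Z.card * (s ^ M * ∏ v, (P v).d) := by rw [sum_const, smul_eq_mul]
      _ ≤ q.natDegree * (s ^ M * ∏ v, (P v).d) := Nat.mul_le_mul_right _ hZc
      _ = q.natDegree * s ^ M * ∏ v, (P v).d := (mul_assoc _ _ _).symm

/-- the room in the numerical condition -/
theorem exists_gamR {ϱ : ℝ} {M n r s : ℕ} (h : NumR M n r s ϱ) :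
    ∃ γ : ℝ, 0 < γ ∧ ∀ N D : ℝ, 0 ≤ N → 0 ≤ D → (r * n : ℝ) ^ M * N ≤ (r * s ^ M) * D →
      (1 + γ) * (((2 * M : ℕ) : ℝ) ^ (2 * M) * N) ≤ ((2 * M).factorial : ℝ) * (ϱ ^ M * D) := by
  unfold NumR at h
  rw [mul_pow] at h
  obtain ⟨T, hT⟩ : ∃ T : ℝ, T = ((2 * M : ℕ) : ℝ) ^ (2 * M) := ⟨_, rfl⟩
  obtain ⟨F, hF⟩ : ∃ F : ℝ, F = ((2 * M).factorial : ℝ) := ⟨_, rfl⟩
  obtain ⟨X, hX⟩ : ∃ X : ℝ, X = (r * n : ℝ) ^ M := ⟨_, rfl⟩
  obtain ⟨Y, hY⟩ : ∃ Y : ℝ, Y = (r * s ^ M : ℝ) := ⟨_, rfl⟩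
  rw [← hT, ← hF]
  rw [← hT, ← hF, ← hX, ← hY] at h
  rw [← hX, ← hY]
  have hT0 : 0 ≤ T := by rw [hT]; positivity
  have hX0 : 0 ≤ X := by rw [hX]; positivity
  have hY0 : 0 ≤ Y := by rw [hY]; positivity
  have hA : 0 < F * (ϱ ^ M * X) := (mul_nonneg hT0 hY0).trans_lt h
  have hX1 : 0 < X := by
    rcases hX0.eq_or_lt with h1 | h1
    · rw [← h1, mul_zero, mul_zero] at hA
      exact absurd hA (lt_irrefl _)
    · exact h1
  -- the room
  obtain ⟨γ, hγ, hγB⟩ : ∃ γ : ℝ, 0 < γ ∧ (1 + γ) * (T * Y) ≤ F * (ϱ ^ M * X) := by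
    rcases (mul_nonneg hT0 hY0).eq_or_lt with h1 | h1
    · exact ⟨1, one_pos, by rw [← h1, mul_zero]; exact hA.le⟩
    · refine ⟨F * (ϱ ^ M * X) / (T * Y) - 1, ?_, ?_⟩
      · have := (one_lt_div h1).2 h
        linarith
      · rw [add_sub_cancel, div_mul_cancel₀ _ h1.ne']
  refine ⟨γ, hγ, ?_⟩
  intro N D hN hD hND
  have h2 : (1 + γ) * (T * N) * X ≤ F * (ϱ ^ M * D) * X := by
    calc (1 + γ) * (T * N) * X = (1 + γ) * T * (X * N) := by ring
      _ ≤ (1 + γ) * T * (Y * D) := mul_le_mul_of_nonneg_left hND (by positivity)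
      _ = ((1 + γ) * (T * Y)) * D := by ring
      _ ≤ (F * (ϱ ^ M * X)) * D := mul_le_mul_of_nonneg_right hγB hD
      _ = F * (ϱ ^ M * D) * X := by ring
  exact le_of_mul_le_mul_right h2 hX1

/-- the densities: `1` at the integer points, `ϱ` at the rational points -/
def rhoV (M : ℕ) (ϱ : ℝ) (v : Fin (2 * M)) : ℝ := if v.val % 2 = 0 then 1 else ϱ

theorem rhoV_cv (ϱ : ℝ) (a : Fin M) : rhoV M ϱ (cv a) = 1 := by
  unfold rhoV
  rw [if_pos (by simp only [cv]; omega)]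

theorem rhoV_an (ϱ : ℝ) (a : Fin M) : rhoV M ϱ (an a) = ϱ := by
  unfold rhoV
  rw [if_neg (by simp only [an]; omega)]

theorem prod_rhoV (ϱ : ℝ) (f : Fin (2 * M) → ℝ) :
    ∏ v, (rhoV M ϱ v * f v) = ϱ ^ M * ∏ v, f v := by
  rw [prod_mul_distrib, prod_two fun v => rhoV M ϱ v]
  congr 1
  rw [prod_congr rfl fun a _ => by rw [rhoV_cv, rhoV_an, one_mul], prod_const, card_univ,
    Fintype.card_fin]

theorem stab_count5 (ϱ : ℝ) (M n r s : ℕ) (h : NumR M n r s ϱ) : ∃ γ : ℝ, 0 < γ ∧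
    ∀ (nu : ℕ) (P : Fin (2 * M) → Ptr nu) (gs : Fin M → ℤ[X]) (θ : Fin M → Fin n → ℂ)
      (fs : Fin M → ℤ[X][X]) (pd : ∀ a, PData (fs a) n) (q : ℚ[X]) (β : ℂ) (l : Fin M → Fin n),
      Irreducible q → q.natDegree = r → aeval β q = 0 → (∀ a, (gs a).Monic) →
      (∀ a, Rts (gs a) (θ a)) →
      (∀ a, Nonempty (LbR (P (cv a)) (v1 (θ a)) (l a))) →
      (∀ a, Nonempty (OrbD (pd a) s β (l a))) → (∀ a, TauR (θ a) (pd a) (P (an a))) →
      ∃ PP : Finset (∀ v, Fin (P v).d), StbR P PP ∧ (fun v => (P v).i) ∈ PP ∧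
        (1 + γ) * (((2 * M : ℕ) : ℝ) ^ (2 * M) * PP.card) ≤
          ((2 * M).factorial : ℝ) * ∏ v, (rhoV M ϱ v * ((P v).d : ℝ)) := by
  obtain ⟨γ, hγ, hmain⟩ := exists_gamR h
  refine ⟨γ, hγ, ?_⟩
  intro nu P gs θ fs pd q β l hq hr hβ hm hθ hC hO hA
  obtain ⟨PP, h1, h2, h3⟩ := exists_PPR P gs θ fs pd q β l s hq hβ hm hθ hC hO hA
  refine ⟨PP, h1, h2, ?_⟩
  rw [prod_rhoV ϱ fun v => ((P v).d : ℝ)]
  refine hmain _ _ (Nat.cast_nonneg _) (prod_nonneg fun v _ => Nat.cast_nonneg _) ?_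
  rw [hr] at h3
  exact_mod_cast h3

end Pool.Agent.H26.TR
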